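import Pool.Agent.Helper14.LK.St
import Pool.Agent.Helper14.LK.Basic

/-!
Project LK (MP_58b586_gt), module EXT: the cut off extension.
-/

set_option autoImplicit false

open Pool.Agent.Helper14.LK
open scoped ContDiff Topology
open MeasureTheory Set Filter

namespace Pool.Agent.Helper11.LK

/-- the cutoff function -/
private noncomputable def chi (t : ℝ) : ℝ := 1 - Real.smoothTransition ((4 * t - 1) / 3)

private theorem chi_smooth : ContDiff ℝ ∞ chi := by
  unfold chi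
  exact contDiff_const.sub (Real.smoothTransition.contDiff.comp
    (((contDiff_const.mul contDiff_id).sub contDiff_const).div_const 3))

private theorem chi_one {t : ℝ} (h : t ≤ 1 / 4) : chi t = 1 := by
  unfold chi
  rw [Real.smoothTransition.zero_of_nonpos (by linarith), sub_zero]

private theorem chi_zero {t : ℝ} (h : 1 ≤ t) : chi t = 0 := by
  unfold chi
  rw [Real.smoothTransition.one_of_one_le (by linarith), sub_self]

private theorem chi_abs (t : ℝ) : |chi t| ≤ 1 := by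
  unfold chi
  have h1 := Real.smoothTransition.nonneg ((4 * t - 1) / 3)
  have h2 := Real.smoothTransition.le_one ((4 * t - 1) / 3)
  rw [abs_le]
  constructor <;> linarith

private theorem chi_deriv_zero {t : ℝ} (h : 1 < t) : deriv chi t = 0 := by
  have h1 : chi =ᶠ[𝓝 t] fun _ => (0 : ℝ) := by
    filter_upwards [lt_mem_nhds h] with s hs
    exact chi_zero hs.le
  rw [h1.deriv_eq, deriv_const]

private theorem chi_deriv_zero' {t : ℝ} (h : t < 1 / 4) : deriv chi t = 0 := by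
  have h1 : chi =ᶠ[𝓝 t] fun _ => (1 : ℝ) := by
    filter_upwards [gt_mem_nhds h] with s hs
    exact chi_one hs.le
  rw [h1.deriv_eq, deriv_const]

private theorem chi_deriv_bound : ∃ c : ℝ, 0 ≤ c ∧ ∀ t, |deriv chi t| ≤ c := by
  have hc : Continuous (deriv chi) := chi_smooth.continuous_deriv (by simp)
  obtain ⟨c, hc'⟩ := isCompact_Icc.exists_bound_of_continuousOn
    (s := Icc (0 : ℝ) 2) hc.continuousOn
  refine ⟨max c 0, le_max_right _ _, fun t => ?_⟩
  by_cases h1 : t ∈ Icc (0 : ℝ) 2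
  · exact (hc' t h1).trans (le_max_left _ _)
  · have h2 : deriv chi t = 0 := by
      rw [mem_Icc, not_and_or, not_le, not_le] at h1
      rcases h1 with h1 | h1
      · exact chi_deriv_zero' (by linarith)
      · exact chi_deriv_zero (by linarith)
    rw [h2, abs_zero]
    exact le_max_right _ _

private theorem norm_JJ_le {n : ℕ} (a : WW n) : ‖JJ a‖ ≤ ‖a‖ := by
  rw [JJ_apply, Prod.norm_def]
  simp only [norm_neg]
  exact max_le (norm_snd_le a) (norm_fst_le a)

/-- a small perturbation of the identity is tame -/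
private theorem tame_pert {n : ℕ} (L : WW n → WW n) (h : ∀ a, ‖L a - a‖ ≤ 1 / 100 * ‖a‖)
    (a : WW n) (ha : a ≠ 0) : 0 < om (L a) (L (JJ a)) := by
  obtain ⟨e, he⟩ : ∃ e : WW n, e = L a - a := ⟨_, rfl⟩
  obtain ⟨f, hf⟩ : ∃ f : WW n, f = L (JJ a) - JJ a := ⟨_, rfl⟩
  have h1 : L a = a + e := by rw [he]; abel
  have h2 : L (JJ a) = JJ a + f := by rw [hf]; abel
  have h3 : ‖e‖ ≤ 1 / 100 * ‖a‖ := by rw [he]; exact h a
  have h4 : ‖f‖ ≤ 1 / 100 * ‖a‖ := by
    rw [hf]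
    refine (h (JJ a)).trans ?_
    have := norm_JJ_le a
    linarith
  have h0 : 0 < ‖a‖ := norm_pos_iff.2 ha
  rw [h1, h2, om_add_left, om_add_right, om_add_right, om_JJ_right, ip_self_eq]
  have h5 : ‖a‖ ≤ nm a := norm_le_nm a
  have h6 := abs_le.1 (abs_om_le_norm a f)
  have h7 := abs_le.1 (abs_om_le_norm e (JJ a))
  have h8 := abs_le.1 (abs_om_le_norm e f)
  have h9 : 4 * ‖a‖ * ‖f‖ ≤ 4 / 100 * ‖a‖ ^ 2 := by nlinarith [norm_nonneg f]
  have h10 : 4 * ‖e‖ * ‖JJ a‖ ≤ 4 / 100 * ‖a‖ ^ 2 := by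
    have := norm_JJ_le a
    have h11 : ‖e‖ * ‖JJ a‖ ≤ (1 / 100 * ‖a‖) * ‖a‖ :=
      mul_le_mul h3 this (norm_nonneg _) (by positivity)
    nlinarith
  have h12 : 4 * ‖e‖ * ‖f‖ ≤ 4 / 100 * ‖a‖ ^ 2 := by
    have h11 : ‖e‖ * ‖f‖ ≤ (1 / 100 * ‖a‖) * (1 / 100 * ‖a‖) :=
      mul_le_mul h3 h4 (norm_nonneg _) (by positivity)
    nlinarith
  have h13 : ‖a‖ ^ 2 ≤ nm a ^ 2 := by nlinarith
  have h14 : 0 < ‖a‖ ^ 2 := by positivity
  nlinarith [h6.1, h7.1, h8.1]

/-- the case `s = 0` -/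
private theorem tame_zero {n : ℕ} (L : EE n →L[ℝ] WW n) (hiso : ∀ u v, om (L u) (L v) = 0)
    (himm : ∀ u, L u = 0 → u = 0) (a : WW n) (ha : a ≠ 0) :
    0 < om (L a.1 + JJ (L a.2)) (L (JJ a).1 + JJ (L (JJ a).2)) := by
  have h1 : (JJ a).1 = -a.2 := by rw [JJ_apply]
  have h2 : (JJ a).2 = a.1 := by rw [JJ_apply]
  rw [h1, h2, map_neg, om_add_left, om_add_right, om_add_right, om_neg_right, om_neg_right,
    om_JJ_right, om_JJ_left, om_JJ_JJ, hiso, hiso, ip_self_eq, ip_self_eq]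
  have h3 : L a.1 ≠ 0 ∨ L a.2 ≠ 0 := by
    by_contra hcon
    push Not at hcon
    exact ha (Prod.ext (himm _ hcon.1) (himm _ hcon.2))
  have h4 : 0 ≤ nm (L a.1) := nm_nonneg _
  have h5 : 0 ≤ nm (L a.2) := nm_nonneg _
  rcases h3 with h3 | h3
  · have h6 : 0 < nm (L a.1) := lt_of_le_of_ne h4 (fun h => h3 (nm_eq_zero h.symm))
    nlinarith [sq_nonneg (nm (L a.2)), pow_pos h6 2]
  · have h6 : 0 < nm (L a.2) := lt_of_le_of_ne h5 (fun h => h3 (nm_eq_zero h.symm))
    nlinarith [sq_nonneg (nm (L a.1)), pow_pos h6 2]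

theorem hEXT (hKC : StKC) (hPTW : StPTW) : StEXT := by
  intro n
  obtain ⟨C, hC, hadd, hsm, haff, hval, hder, hbd⟩ := hKC n
  obtain ⟨ε, hε, hP⟩ := hPTW n
  refine ⟨ε, hε, fun ι hι himm hiso hstd hsim => ?_⟩
  obtain ⟨R₀, hR₀⟩ := hstd
  obtain ⟨g, hg⟩ : ∃ g : EE n → WW n, g = fun x => ι x - (x, 0) := ⟨_, rfl⟩
  have hι₀ : ContDiff ℝ ∞ (fun x : EE n => ((x, 0) : WW n)) :=
    contDiff_id.prodMk contDiff_const
  have hgs : ContDiff ℝ ∞ g := by
    rw [hg]
    exact hι.sub hι₀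
  have hg0 : ∀ x, R₀ ≤ ‖x‖ → g x = 0 := by
    intro x hx
    rw [hg]
    simp only [hR₀ x hx, sub_self]
  obtain ⟨B, hB0, hB⟩ : ∃ B : ℝ, 0 ≤ B ∧ ∀ x, ‖g x‖ ≤ B := by
    obtain ⟨B, hB⟩ := (isCompact_closedBall (0 : EE n) R₀).exists_bound_of_continuousOn
      hgs.continuous.continuousOn
    refine ⟨max B 0, le_max_right _ _, fun x => ?_⟩
    by_cases hx : x ∈ Metric.closedBall (0 : EE n) R₀
    · exact (hB x hx).trans (le_max_left _ _)
    · rw [mem_closedBall_zero_iff, not_le] at hx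
      rw [hg0 x hx.le, norm_zero]
      exact le_max_right _ _
  -- the operator applied to `ι`
  have hSmι : ∀ r w, Sm ι r w = w + Sm g r w := by
    intro r w
    have h1 := hadd g (fun x => 0 + (ContinuousLinearMap.inl ℝ (EE n) (EE n)) x) hgs (by
      exact contDiff_const.add (ContinuousLinearMap.contDiff _)) r w
    have h2 : (fun x => g x + (0 + (ContinuousLinearMap.inl ℝ (EE n) (EE n)) x)) = ι := by
      funext x
      rw [hg]
      simp
    rw [h2] at h1
    rw [h1, haff]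
    have h3 : (0 : WW n) + (ContinuousLinearMap.inl ℝ (EE n) (EE n)) w.1 +
        JJ ((ContinuousLinearMap.inl ℝ (EE n) (EE n)) w.2) = w := by
      rw [JJ_apply]
      simp
    rw [h3, add_comm]
  obtain ⟨c₁, hc₁, hchi⟩ := chi_deriv_bound
  obtain ⟨S, hS⟩ : ∃ S : ℝ, S = 200 * C * B * (1 + c₁) + 1 := ⟨_, rfl⟩
  have hS0 : 0 < S := by rw [hS]; positivity
  obtain ⟨F, hF⟩ : ∃ F : ℝ → WW n → WW n, F = fun r w =>
    w + chi ((r ^ 2 + ‖w.2‖ ^ 2) / S ^ 2) • Sm g r w := ⟨_, rfl⟩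
  have hSg : ContDiff ℝ ∞ (Function.uncurry (Sm g)) := hsm g hgs
  have hFs : ContDiff ℝ ∞ (Function.uncurry F) := by
    have h1 : Function.uncurry F = fun p : ℝ × WW n =>
        p.2 + chi ((p.1 ^ 2 + ‖p.2.2‖ ^ 2) / S ^ 2) • Function.uncurry (Sm g) p := by
      rw [hF]
      rfl
    rw [h1]
    refine contDiff_snd.add (ContDiff.smul (chi_smooth.comp ?_) hSg)
    exact ((contDiff_fst.pow 2).add ((contDiff_norm_sq ℝ).comp
      (contDiff_snd.comp contDiff_snd))).div_const _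
  have hF1 : ∀ r w, S ^ 2 ≤ r ^ 2 + ‖w.2‖ ^ 2 → F r w = w := by
    intro r w h
    rw [hF]
    simp only
    rw [chi_zero, zero_smul, add_zero]
    rw [le_div_iff₀ (by positivity)]
    linarith
  -- near points with small `s` the map is `Sm ι`
  have hnear : ∀ r w, r ^ 2 + ‖w.2‖ ^ 2 < S ^ 2 / 4 →
      fderiv ℝ (F r) w = fderiv ℝ (Sm ι r) w := by
    intro r w h
    apply Filter.EventuallyEq.fderiv_eq
    have h1 : ContinuousAt (fun w : WW n => r ^ 2 + ‖w.2‖ ^ 2) w := by fun_prop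
    filter_upwards [h1.eventually_lt continuousAt_const h] with w' hw'
    rw [hF, hSmι]
    simp only
    rw [chi_one, one_smul]
    rw [div_le_iff₀ (by positivity)]
    linarith
  have hfar : ∀ r w, S ^ 2 / 4 ≤ r ^ 2 + ‖w.2‖ ^ 2 → ∀ a,
      ‖fderiv ℝ (F r) w a - a‖ ≤ 1 / 100 * ‖a‖ := by
    intro r w h a
    obtain ⟨q, hq⟩ : ∃ q : ℝ, q = r ^ 2 + ‖w.2‖ ^ 2 := ⟨_, rfl⟩
    rw [← hq] at h
    have hq0 : 0 < q := lt_of_lt_of_le (by positivity) h
    obtain ⟨s, hs⟩ : ∃ s : ℝ, s = √q := ⟨_, rfl⟩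
    have hs0 : 0 < s := by rw [hs]; exact Real.sqrt_pos.2 hq0
    have hsq : s ^ 2 = q := by rw [hs]; exact Real.sq_sqrt hq0.le
    have hsS : S / 2 ≤ s := by
      rw [hs]
      apply Real.le_sqrt_of_sq_le
      nlinarith
    obtain ⟨hb1, hb2⟩ := hbd g hgs r w s B hs0 (by rw [hsq, hq]) (fun x _ => hB x)
    -- derivative
    have hd1 : HasFDerivAt (fun w' : WW n => (r ^ 2 + ‖w'.2‖ ^ 2) / S ^ 2)
        ((S ^ 2)⁻¹ • (2 • ((innerSL ℝ w.2).comp (ContinuousLinearMap.snd ℝ (EE n) (EE n))))) w := by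
      have h1 : HasFDerivAt (fun w' : WW n => ‖w'.2‖ ^ 2)
          (2 • ((innerSL ℝ w.2).comp (ContinuousLinearMap.snd ℝ (EE n) (EE n)))) w := by
        have h2 := (hasFDerivAt_snd (𝕜 := ℝ) (p := w)).norm_sq
        exact h2
      have h2 := (h1.const_add (r ^ 2)).mul_const (S ^ 2)⁻¹
      simpa [div_eq_mul_inv] using h2
    have hd2 : HasDerivAt chi (deriv chi (q / S ^ 2)) (q / S ^ 2) :=
      (chi_smooth.differentiable (by simp)).differentiableAt.hasDerivAt
    have hd3 : HasFDerivAt (Sm g r) (fderiv ℝ (Sm g r) w) w := by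
      have h1 : ContDiff ℝ ∞ (Sm g r) :=
        hSg.comp (contDiff_const.prodMk contDiff_id)
      exact (h1.differentiable (by simp)).differentiableAt.hasFDerivAt
    have hd4 : HasFDerivAt (fun w' : WW n => chi ((r ^ 2 + ‖w'.2‖ ^ 2) / S ^ 2))
        (deriv chi (q / S ^ 2) • ((S ^ 2)⁻¹ • (2 • ((innerSL ℝ w.2).comp
          (ContinuousLinearMap.snd ℝ (EE n) (EE n)))))) w := by
      have h1 := HasDerivAt.comp_hasFDerivAt w (h₂ := chi) (h₂' := deriv chi (q / S ^ 2))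
        (f := fun w' : WW n => (r ^ 2 + ‖w'.2‖ ^ 2) / S ^ 2) (by rw [← hq]; exact hd2) hd1
      exact h1
    have hd5 := (hasFDerivAt_id (𝕜 := ℝ) w).add (hd4.smul hd3)
    have hd6 : fderiv ℝ (F r) w = ContinuousLinearMap.id ℝ (WW n) +
        (chi ((r ^ 2 + ‖w.2‖ ^ 2) / S ^ 2) • fderiv ℝ (Sm g r) w +
          (deriv chi (q / S ^ 2) • ((S ^ 2)⁻¹ • (2 • ((innerSL ℝ w.2).comp
          (ContinuousLinearMap.snd ℝ (EE n) (EE n)))))).smulRight (Sm g r w)) := by
      rw [hF]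
      exact hd5.fderiv
    rw [hd6]
    simp only [ContinuousLinearMap.add_apply, ContinuousLinearMap.id_apply,
      ContinuousLinearMap.smul_apply, ContinuousLinearMap.smulRight_apply,
      ContinuousLinearMap.comp_apply, ContinuousLinearMap.coe_snd', innerSL_apply_apply, ← hq]
    rw [add_sub_cancel_left]
    have hn1 : ‖chi (q / S ^ 2) • (fderiv ℝ (Sm g r) w) a‖ ≤ C * (2 * B / S) * ‖a‖ := by
      rw [norm_smul, Real.norm_eq_abs]
      calc |chi (q / S ^ 2)| * ‖(fderiv ℝ (Sm g r) w) a‖ ≤ 1 * (C * (B / s) * ‖a‖) :=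
            mul_le_mul (chi_abs _) (hb2 a) (norm_nonneg _) zero_le_one
        _ ≤ C * (2 * B / S) * ‖a‖ := by
            rw [one_mul]
            have h1 : B / s ≤ 2 * B / S := by
              rw [div_le_div_iff₀ hs0 hS0]
              nlinarith
            gcongr
    have hn2 : ‖(deriv chi (q / S ^ 2) • ((S ^ 2)⁻¹ • (2 • inner ℝ w.2 a.2))) • Sm g r w‖ ≤
        c₁ * (2 / S) * ‖a‖ * (C * B) := by
      rw [norm_smul]
      by_cases hqS : q ≤ S ^ 2
      · refine mul_le_mul ?_ hb1 (norm_nonneg _) (by positivity)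
        have hw : ‖w.2‖ ≤ S := by
          have h1 : ‖w.2‖ ^ 2 ≤ S ^ 2 := by nlinarith [sq_nonneg r]
          exact le_of_sq_le_sq h1 hS0.le
        have hi : |inner ℝ w.2 a.2| ≤ S * ‖a‖ := by
          refine (abs_real_inner_le_norm _ _).trans ?_
          exact mul_le_mul hw (norm_snd_le a) (norm_nonneg _) hS0.le
        simp only [smul_eq_mul, nsmul_eq_mul, Nat.cast_ofNat, Real.norm_eq_abs, abs_mul]
        have e1 : |(S ^ 2)⁻¹| = (S ^ 2)⁻¹ := abs_of_pos (by positivity)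
        rw [e1, abs_two]
        have h3 : (S ^ 2)⁻¹ * (2 * |inner ℝ w.2 a.2|) ≤ 2 / S * ‖a‖ := by
          calc (S ^ 2)⁻¹ * (2 * |inner ℝ w.2 a.2|) ≤ (S ^ 2)⁻¹ * (2 * (S * ‖a‖)) := by gcongr
            _ = 2 / S * ‖a‖ := by field_simp
        calc |deriv chi (q / S ^ 2)| * ((S ^ 2)⁻¹ * (2 * |inner ℝ w.2 a.2|)) ≤
              c₁ * (2 / S * ‖a‖) := mul_le_mul (hchi _) h3 (by positivity) hc₁
          _ = c₁ * (2 / S) * ‖a‖ := by ring
      · push Not at hqS
        have h1 : 1 < q / S ^ 2 := by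
          rw [lt_div_iff₀ (by positivity)]
          linarith
        rw [chi_deriv_zero h1, zero_smul, norm_zero, zero_mul]
        positivity
    refine (norm_add_le _ _).trans ?_
    refine (add_le_add hn1 hn2).trans ?_
    have h5 : C * (2 * B / S) * ‖a‖ + c₁ * (2 / S) * ‖a‖ * (C * B) =
        (2 * C * B * (1 + c₁)) / S * ‖a‖ := by
      field_simp
    rw [h5]
    refine mul_le_mul_of_nonneg_right ?_ (norm_nonneg _)
    rw [div_le_iff₀ hS0, hS]
    nlinarith
  refine ⟨F, S, max (R₀ + C * S + S) S, hS0, hFs, ?_, ?_, ?_, ?_⟩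
  · intro r w hr
    apply hF1
    have h1 : S ^ 2 ≤ |r| ^ 2 := pow_le_pow_left₀ hS0.le hr 2
    rw [sq_abs] at h1
    nlinarith [sq_nonneg ‖w.2‖]
  · intro r w hw
    by_cases hq : S ^ 2 ≤ r ^ 2 + ‖w.2‖ ^ 2
    · exact hF1 r w hq
    push Not at hq
    have hw2 : ‖w.2‖ < S := by
      by_contra hcon
      push Not at hcon
      have h1 : S ^ 2 ≤ ‖w.2‖ ^ 2 := pow_le_pow_left₀ hS0.le hcon 2
      nlinarith [sq_nonneg r]
    have hw1 : R₀ + C * S + S ≤ ‖w.1‖ := by
      have h1 : max (R₀ + C * S + S) S ≤ max ‖w.1‖ ‖w.2‖ := hw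
      rcases le_total ‖w.1‖ ‖w.2‖ with h2 | h2
      · rw [max_eq_right h2] at h1
        have h3 := (le_max_right (R₀ + C * S + S) S).trans h1
        linarith
      · rw [max_eq_left h2] at h1
        exact (le_max_left _ _).trans h1
    have hz : Sm g r w = 0 := by
      rcases eq_or_lt_of_le (show 0 ≤ r ^ 2 + ‖w.2‖ ^ 2 by positivity) with h0 | h0
      · have hr : r = 0 := by nlinarith [sq_nonneg r, sq_nonneg ‖w.2‖]
        have hw0 : w.2 = 0 := by
          have : ‖w.2‖ = 0 := by nlinarith [sq_nonneg r, sq_nonneg ‖w.2‖]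
          exact norm_eq_zero.1 this
        have hw' : w = (w.1, 0) := Prod.ext rfl hw0
        rw [hw', hr, hval g hgs]
        apply hg0
        have : 0 < C * S := by positivity
        linarith
      · have hgx : ∀ x, ‖x - w.1‖ ≤ C * √(r ^ 2 + ‖w.2‖ ^ 2) → ‖g x‖ ≤ 0 := by
          intro x hx
          have hsS : √(r ^ 2 + ‖w.2‖ ^ 2) ≤ S := by
            apply Real.sqrt_le_iff.2
            exact ⟨hS0.le, hq.le⟩
          have h3 : ‖w.1‖ ≤ ‖x‖ + ‖x - w.1‖ := by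
            have := norm_sub_norm_le w.1 x
            rw [norm_sub_rev] at this
            linarith
          have h4 : C * √(r ^ 2 + ‖w.2‖ ^ 2) ≤ C * S := mul_le_mul_of_nonneg_left hsS hC.le
          have h5 : R₀ ≤ ‖x‖ := by linarith
          rw [hg0 x h5, norm_zero]
        have hb1 := (hbd g hgs r w (√(r ^ 2 + ‖w.2‖ ^ 2)) 0 (Real.sqrt_pos.2 h0)
          (Real.sq_sqrt h0.le).symm hgx).1
        rw [mul_zero] at hb1
        exact norm_le_zero_iff.1 hb1
    rw [hF]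
    simp only [hz, smul_zero, add_zero]
  · intro r w a ha
    by_cases hq : r ^ 2 + ‖w.2‖ ^ 2 < S ^ 2 / 4
    · rw [hnear r w hq]
      rcases eq_or_lt_of_le (show 0 ≤ r ^ 2 + ‖w.2‖ ^ 2 by positivity) with h0 | h0
      · have hr : r = 0 := by nlinarith [sq_nonneg r, sq_nonneg ‖w.2‖]
        have hw0 : w.2 = 0 := by
          have : ‖w.2‖ = 0 := by nlinarith [sq_nonneg r, sq_nonneg ‖w.2‖]
          exact norm_eq_zero.1 this
        have hw' : w = (w.1, 0) := Prod.ext rfl hw0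
        rw [hw', hr, hder ι hι, hder ι hι]
        exact tame_zero (fderiv ℝ ι w.1) (hiso w.1) (himm w.1) a ha
      · exact hP ι hι hiso hsim r w h0 a ha
    · push Not at hq
      exact tame_pert _ (hfar r w hq) a ha
  · intro x
    rw [hF]
    simp only [norm_zero]
    rw [chi_one (by norm_num), one_smul, hval g hgs, hg]
    simp

end Pool.Agent.Helper11.LK
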